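import Pool.Agent.helper44.EX.Spec

set_option autoImplicit false

open Complex Metric Set Filter Topology MeasureTheory Pool.Agent.helper98.ILF

noncomputable section

namespace EX

theorem SEC_ne (n : ℕ) (hn : 2 ≤ n) (r α : ℝ) (hr0 : 0 ≤ r)
    (hα : |α| ≤ Real.pi / n) :
    ∑ i ∈ Finset.range n, ((r : ℂ) * Complex.exp (α * I)) ^ i ≠ 0 := by
  intro h0
  set t : ℂ := (r : ℂ) * Complex.exp (α * I) with ht
  have hn0 : n ≠ 0 := by omega
  have hnR : (0 : ℝ) < n := by positivity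
  have h1 : t ^ n = 1 := by
    have h2 := geom_sum_mul t n
    rw [h0, zero_mul] at h2
    exact (sub_eq_zero.mp h2.symm)
  have hnorm : ‖t‖ = r := by
    rw [ht, norm_mul, Complex.norm_exp_ofReal_mul_I, mul_one, Complex.norm_real,
      Real.norm_eq_abs, abs_of_nonneg hr0]
  have hr1 : r = 1 := by
    have h2 : r ^ n = 1 := by
      have h3 := congrArg norm h1
      rw [norm_pow, hnorm, norm_one] at h3
      exact h3
    exact (pow_eq_one_iff_of_nonneg hr0 hn0).mp h2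
  have h4 : Complex.exp ((n : ℂ) * (α * I)) = 1 := by
    rw [Complex.exp_nat_mul]
    rw [ht, hr1, Complex.ofReal_one, one_mul] at h1
    exact h1
  obtain ⟨k, hk⟩ := Complex.exp_eq_one_iff.mp h4
  have h5 : (n : ℝ) * α = k * (2 * Real.pi) := by
    have h6 : ((n : ℂ) * α - k * (2 * Real.pi)) * I = 0 := by
      linear_combination hk
    have h7 : ((n : ℂ) * α - k * (2 * Real.pi)) = 0 := by
      rcases mul_eq_zero.mp h6 with h | h
      · exact h
      · exact absurd h Complex.I_ne_zero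
    have h8 : (((n : ℝ) * α - k * (2 * Real.pi) : ℝ) : ℂ) = 0 := by
      push_cast
      exact h7
    have h9 := Complex.ofReal_eq_zero.mp h8
    linarith
  have h10 : |(n : ℝ) * α| ≤ Real.pi := by
    rw [abs_mul, abs_of_pos hnR]
    calc (n : ℝ) * |α| ≤ n * (Real.pi / n) := by gcongr
      _ = Real.pi := by field_simp
  rw [h5] at h10
  have hk0 : k = 0 := by
    by_contra hk0
    have h11 : (1 : ℝ) ≤ |(k : ℝ)| := by
      have h12 : (1 : ℤ) ≤ |k| := Int.one_le_abs hk0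
      have h13 : ((1 : ℤ) : ℝ) ≤ ((|k| : ℤ) : ℝ) := by exact_mod_cast h12
      simpa using h13
    rw [abs_mul, abs_of_pos (by positivity : (0 : ℝ) < 2 * Real.pi)] at h10
    nlinarith [Real.pi_pos]
  have hα0 : α = 0 := by
    rw [hk0] at h5
    have h14 : (n : ℝ) * α = 0 := by simpa using h5
    rcases mul_eq_zero.mp h14 with h | h
    · exact absurd h hnR.ne'
    · exact h
  have ht1 : t = 1 := by
    rw [ht, hr1, hα0]
    simp
  rw [ht1] at h0
  simp at h0
  exact hn0 h0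

theorem SEC : SEC_stmt := by
  intro n hn
  have hcomp : IsCompact ((Icc (0 : ℝ) 1) ×ˢ (Icc (-(Real.pi / n)) (Real.pi / n))) :=
    isCompact_Icc.prod isCompact_Icc
  have hcont : ContinuousOn (fun p : ℝ × ℝ =>
      ‖∑ i ∈ Finset.range n, ((p.1 : ℂ) * Complex.exp (p.2 * I)) ^ i‖)
      ((Icc (0 : ℝ) 1) ×ˢ (Icc (-(Real.pi / n)) (Real.pi / n))) := by
    apply Continuous.continuousOn
    fun_prop
  have hpi : 0 ≤ Real.pi / n := by positivity
  have hne : ((Icc (0 : ℝ) 1) ×ˢ (Icc (-(Real.pi / n)) (Real.pi / n))).Nonempty :=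
    ⟨(0, 0), ⟨by simp, by constructor <;> simp <;> linarith⟩⟩
  obtain ⟨p, hp, hmin⟩ := hcomp.exists_isMinOn hne hcont
  refine ⟨‖∑ i ∈ Finset.range n, ((p.1 : ℂ) * Complex.exp (p.2 * I)) ^ i‖, ?_, ?_⟩
  · rw [norm_pos_iff]
    exact SEC_ne n hn p.1 p.2 hp.1.1 (abs_le.mpr ⟨hp.2.1, hp.2.2⟩)
  · intro t ht harg
    have h1 : t = ((‖t‖ : ℝ) : ℂ) * Complex.exp ((arg t : ℝ) * I) :=
      (Complex.norm_mul_exp_arg_mul_I t).symm
    have h2 : ((‖t‖, arg t) : ℝ × ℝ) ∈
        ((Icc (0 : ℝ) 1) ×ˢ (Icc (-(Real.pi / n)) (Real.pi / n))) :=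
      ⟨⟨norm_nonneg t, ht⟩, abs_le.mp harg⟩
    have h3 := hmin h2
    have h4 : ‖∑ i ∈ Finset.range n, t ^ i‖ = ‖∑ i ∈ Finset.range n,
        (((‖t‖ : ℝ) : ℂ) * Complex.exp ((arg t : ℝ) * I)) ^ i‖ := by
      rw [← h1]
    rw [h4]
    exact h3

end EX
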